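import Pool.Agent.H57.RN.B3Uniq
import Pool.Agent.H90.RNB.Rows

/-!
Project RN, plan C, part B3: the fields `FV_supp`, `FV_dvd`, `FV_gap`, `FV_bound`, `V_super`.
-/

set_option autoImplicit false

namespace H57B3

open Finset RNB RNB.B3

variable {g K : ℕ}

theorem old_abs_le {i : ℕ} (hi : i ≤ g) {x : ℤ} (h : old g K i x) : -W g K ≤ x ∧ x ≤ W g K := by
  obtain ⟨p, hp1, hp2, rfl⟩ := h
  have hS := S_pos (g := g) (K := K) i
  have h1 : |p * S g K i| ≤ Hn g K i * S g K i := by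
    rw [abs_mul, abs_of_pos hS]
    exact mul_le_mul_of_nonneg_right (abs_le.2 ⟨hp1, hp2⟩) hS.le
  exact abs_le.1 (h1.trans (HS_le_W hi))

theorem old_dvd {i : ℕ} {x : ℤ} (h : old g K i x) : L g K ∣ x := by
  obtain ⟨p, -, -, rfl⟩ := h
  exact Dvd.dvd.mul_left (L_dvd_S i) _

theorem ind_nonneg (p : Prop) : 0 ≤ ind p := by unfold ind; split <;> omega

theorem ind_le (p : Prop) : ind p ≤ 1 := by unfold ind; split <;> omega

theorem ind_ne {p : Prop} (h : ind p ≠ 0) : p := by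
  by_contra hc
  apply h
  unfold ind
  rw [if_neg hc]

theorem FVc_ne {i j : ℕ} {x y : ℤ} (h : FVc g K i j x y ≠ 0) :
    old g K i x ∧ newb g K i j y ∧ Rr g K i y % 2 = 0 := by
  have hu := U_pos (g := g) (K := K) (i + 1)
  obtain ⟨n, hn⟩ := U_odd (g := g) (K := K) i
  have ha : aj g K i j = 2 * (((K : ℤ) - j) * U g K (i + 1)) := by unfold aj; ring
  unfold FVc at h
  by_cases h1 : old g K i x ∧ 0 ≤ y ∧ y < M g K ∧ Rr g K i y = U g K i - 1 + aj g K i j
  · exact ⟨h1.1, Or.inl ⟨h1.2.1, h1.2.2.1, Or.inl h1.2.2.2⟩, by omega⟩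
  · by_cases h2 : old g K i x ∧ 0 ≤ y ∧ y < M g K ∧ Rr g K i y = U g K i - 1 - aj g K i j
    · exact ⟨h2.1, Or.inr ⟨h2.2.1, h2.2.2.1, Or.inr h2.2.2.2⟩, by omega⟩
    · exfalso
      apply h
      unfold ind
      rw [if_neg h1, if_neg h2]
      rfl

theorem FVc_abs_le (i j : ℕ) (x y : ℤ) : |FVc g K i j x y| ≤ 1 := by
  unfold FVc
  have h1 := ind_nonneg (old g K i x ∧ 0 ≤ y ∧ y < M g K ∧ Rr g K i y = U g K i - 1 + aj g K i j)
  have h2 := ind_le (old g K i x ∧ 0 ≤ y ∧ y < M g K ∧ Rr g K i y = U g K i - 1 + aj g K i j)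
  have h3 := ind_nonneg (old g K i x ∧ 0 ≤ y ∧ y < M g K ∧ Rr g K i y = U g K i - 1 - aj g K i j)
  have h4 := ind_le (old g K i x ∧ 0 ≤ y ∧ y < M g K ∧ Rr g K i y = U g K i - 1 - aj g K i j)
  rw [abs_le]
  constructor <;> omega

theorem FVs_ne {τ : ℕ} {x y : ℤ} (h : FVs g K τ x y ≠ 0) :
    lf g K x ∧ birth g K x = τ ∧ min (home g K x) (tip g K x) ≤ y ∧
      y < max (home g K x) (tip g K x) := by
  unfold FVs at h
  exact ind_ne (left_ne_zero_of_mul h)

theorem FVs_abs_le (τ : ℕ) (x y : ℤ) : |FVs g K τ x y| ≤ 1 := by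
  unfold FVs
  rw [abs_mul]
  have h1 := ind_nonneg (lf g K x ∧ birth g K x = τ ∧
      min (home g K x) (tip g K x) ≤ y ∧ y < max (home g K x) (tip g K x))
  have h2 := ind_le (lf g K x ∧ birth g K x = τ ∧
      min (home g K x) (tip g K x) ≤ y ∧ y < max (home g K x) (tip g K x))
  have h3 : |(if up g K x = snk g K x then (1 : ℤ) else -1)| = 1 := by split <;> simp
  rw [h3, mul_one, abs_of_nonneg h1]
  exact h2

theorem FV_ne {τ : ℕ} {x y : ℤ} (h : FV g K τ x y ≠ 0) : τ < g * K ∧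
    (FVc g K (τ / K) (τ % K) x y ≠ 0 ∨ FVs g K τ x y ≠ 0) := by
  unfold FV at h
  split at h
  · rename_i hτ
    refine ⟨hτ, ?_⟩
    by_contra hc
    push Not at hc
    apply h
    rw [hc.1, hc.2]
    rfl
  · exact absurd rfl h

theorem level_bounds {τ : ℕ} (hτ : τ < g * K) : τ / K < g ∧ τ % K < K := by
  have hK : 0 < K := by
    rcases Nat.eq_zero_or_pos K with h | h
    · subst h; omega
    · exact h
  exact ⟨Nat.div_lt_of_lt_mul (by rwa [mul_comm]), Nat.mod_lt _ hK⟩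

theorem M_even : ∃ n : ℤ, M g K = 2 * n := ⟨_, rfl⟩

theorem Rr_parity' {i : ℕ} {y : ℤ} : Rr g K i y % 2 = y % 2 := by
  unfold Rr
  exact Int.emod_emod_of_dvd _ (Dvd.intro _ rfl)

theorem home_range {x : ℤ} (h : lf g K x) : 0 ≤ home g K x ∧ home g K x < M g K := by
  obtain ⟨j', -, hn⟩ := newb_of (isLeaf_dat h)
  rcases hn with hn | hn
  · exact ⟨hn.1, hn.2.1⟩
  · exact ⟨hn.1, hn.2.1⟩

theorem FV_supp {τ : ℕ} {x y : ℤ} (h : FV g K τ x y ≠ 0) :
    -W g K ≤ x ∧ x ≤ W g K ∧ 0 ≤ y ∧ y + 1 < M g K := by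
  obtain ⟨hτ, h | h⟩ := FV_ne h
  · obtain ⟨ho, hn, hp⟩ := FVc_ne h
    have h1 := old_abs_le (level_bounds hτ).1.le ho
    have hy : 0 ≤ y ∧ y < M g K := by
      rcases hn with hn | hn
      · exact ⟨hn.1, hn.2.1⟩
      · exact ⟨hn.1, hn.2.1⟩
    rw [Rr_parity'] at hp
    obtain ⟨n, hn⟩ := M_even (g := g) (K := K)
    exact ⟨h1.1, h1.2, hy.1, by omega⟩
  · obtain ⟨hl, -, hy1, hy2⟩ := FVs_ne h
    have h1 := lf_range hl
    have h2 := tip_range hl
    have h3 := home_range hl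
    exact ⟨h1.1, h1.2, by omega, by omega⟩

theorem FV_dvd {τ : ℕ} {x y : ℤ} (h : FV g K τ x y ≠ 0) : L g K ∣ x := by
  obtain ⟨hτ, h | h⟩ := FV_ne h
  · exact old_dvd (FVc_ne h).1
  · exact lf_dvd (FVs_ne h).1

theorem FV_gap {τ : ℕ} {x y : ℤ} (hl : lf g K x) (h : FV g K τ x y ≠ 0) :
    y ≠ (if up g K x then tip g K x else tip g K x - 1) := by
  have hu := U_pos (g := g) (K := K) ((dat g K x).i + 1)
  obtain ⟨n, hn⟩ := U_odd (g := g) (K := K) ((dat g K x).i + 1)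
  obtain ⟨hτ, h | h⟩ := FV_ne h
  · obtain ⟨-, -, hp⟩ := FVc_ne h
    rw [Rr_parity'] at hp
    by_cases hup : up g K x = true
    · rw [if_pos hup]
      unfold tip
      rw [if_pos hup]
      unfold up at hup
      rw [decide_eq_true_eq] at hup
      omega
    · rw [if_neg hup]
      unfold tip
      rw [if_neg hup]
      unfold up at hup
      rw [decide_eq_true_eq] at hup
      omega
  · obtain ⟨-, -, hy1, hy2⟩ := FVs_ne h
    by_cases hup : up g K x = true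
    · rw [if_pos hup]
      have ht : tip g K x = home g K x + (U g K ((dat g K x).i + 1) - 1) := by
        unfold tip
        rw [if_pos hup]
      omega
    · rw [if_neg hup]
      have ht : tip g K x = home g K x - (U g K ((dat g K x).i + 1) - 1) := by
        unfold tip
        rw [if_neg hup]
      omega

theorem sum_le_one (D : ℕ) (f : ℕ → ℤ) (h0 : ∀ τ, 0 ≤ f τ) (h1 : ∀ τ, f τ ≤ 1)
    (hu : ∀ τ τ', τ < D → τ' < D → f τ ≠ 0 → f τ' ≠ 0 → τ = τ') : ∑ τ ∈ range D, f τ ≤ 1 := by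
  by_cases h : ∃ τ, τ < D ∧ f τ ≠ 0
  · obtain ⟨τ0, hτ0, hf⟩ := h
    rw [Finset.sum_eq_single τ0]
    · exact h1 τ0
    · intro b hb hne
      by_contra hc
      exact hne (hu _ _ (Finset.mem_range.1 hb) hτ0 hc hf)
    · intro hc
      exact absurd (Finset.mem_range.2 hτ0) hc
  · push Not at h
    rw [Finset.sum_eq_zero (fun τ hτ => h τ (Finset.mem_range.1 hτ))]
    norm_num

theorem FV_sum_le_two (x y : ℤ) : ∑ τ ∈ range (g * K), |FV g K τ x y| ≤ 2 := by
  have h1 : ∑ τ ∈ range (g * K), |FV g K τ x y| ≤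
      ∑ τ ∈ range (g * K), (|FVc g K (τ / K) (τ % K) x y| + |FVs g K τ x y|) := by
    apply Finset.sum_le_sum
    intro τ hτ
    unfold FV
    rw [if_pos (Finset.mem_range.1 hτ)]
    exact abs_add_le _ _
  rw [Finset.sum_add_distrib] at h1
  have h2 : ∑ τ ∈ range (g * K), |FVc g K (τ / K) (τ % K) x y| ≤ 1 := by
    apply sum_le_one
    · intro τ; exact abs_nonneg _
    · intro τ; exact FVc_abs_le _ _ _ _
    · intro τ τ' hτ hτ' hf hf'
      have g1 := FVc_ne (abs_ne_zero.1 hf)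
      have g2 := FVc_ne (abs_ne_zero.1 hf')
      have b1 := level_bounds hτ
      have b2 := level_bounds hτ'
      have h3 := newb_level_unique b1.1 b1.2 b2.1 b2.2 g1.2.1 g2.2.1 rfl
      rw [← Nat.div_add_mod' τ K, ← Nat.div_add_mod' τ' K, h3.1, h3.2]
  have h3 : ∑ τ ∈ range (g * K), |FVs g K τ x y| ≤ 1 := by
    apply sum_le_one
    · intro τ; exact abs_nonneg _
    · intro τ; exact FVs_abs_le _ _ _
    · intro τ τ' hτ hτ' hf hf'
      have g1 := FVs_ne (abs_ne_zero.1 hf)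
      have g2 := FVs_ne (abs_ne_zero.1 hf')
      rw [← g1.2.1, ← g2.2.1]
  linarith

theorem FV_bound (hK : 1 ≤ K) (x y : ℤ) :
    (∑ τ ∈ range (g * K), |FV g K τ x y|) ≤ ((2 ^ K : ℕ) : ℤ) := by
  refine (FV_sum_le_two x y).trans ?_
  have : 2 ^ 1 ≤ 2 ^ K := Nat.pow_le_pow_right (by norm_num) hK
  exact_mod_cast this

theorem V_super {τ : ℕ} {x y : ℤ} (hτ : τ < g * K) (h : FV g K τ x y ≠ 0) :
    (∑ τ' ∈ range τ, |FV g K τ' x y|) ≤ |FV g K τ x y| := by
  have h1 : 1 ≤ |FV g K τ x y| := Int.one_le_abs h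
  have h2 : ∑ τ' ∈ range (τ + 1), |FV g K τ' x y| ≤ ∑ τ' ∈ range (g * K), |FV g K τ' x y| := by
    apply Finset.sum_le_sum_of_subset_of_nonneg
    · intro t ht
      rw [Finset.mem_range] at ht ⊢
      omega
    · intro t _ _
      exact abs_nonneg _
  rw [Finset.sum_range_succ] at h2
  have h3 := FV_sum_le_two (g := g) (K := K) x y
  linarith

end H57B3
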