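import Pool.Agent.RNB.B3Defs

/-!
Project RN, plan C, part B3: the fields of `GridNet` about leaves

`M_pos`, `L_ge`, `eta_nonneg`, `eta_le`, `lf_range`, `lf_dvd`, `tip_range`, `birth_lt`,
`level_nonempty`, `leaf_old`, `leaf_snk`, `leaf_src` for the explicit certificate.
-/

set_option autoImplicit false

namespace H57B3

open Finset RNB RNB.B3

variable {g K : ℕ}

theorem B_pos : 0 < B K := by unfold B; positivity

theorem B_ge3 (hK : 1 ≤ K) : 3 ≤ B K := by unfold B; omega

theorem U_pos (i : ℕ) : 0 < U g K i := by unfold U; exact pow_pos B_pos _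

theorem U_odd (i : ℕ) : Odd (U g K i) := by
  unfold U
  apply Odd.pow
  unfold B
  exact ⟨K, rfl⟩

theorem U_succ {i : ℕ} (hi : i < g) : U g K i = (2 * K + 1) * U g K (i + 1) := by
  unfold U
  rw [show g - i = (g - (i + 1)) + 1 by omega, pow_succ, mul_comm]
  rfl

theorem U_dvd {i i' : ℕ} (h : i ≤ i') : U g K i' ∣ U g K i := by
  unfold U
  exact pow_dvd_pow _ (by omega)

theorem M_eq {i : ℕ} (hi : i ≤ g) : M g K = 2 * U g K i * B K ^ i := by
  unfold M U
  rw [show B K ^ g = B K ^ (g - i) * B K ^ i by rw [← pow_add]; congr 1; omega]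
  ring

theorem M_pos' : 0 < M g K := by unfold M; have := pow_pos (B_pos (K := K)) g; omega

theorem sg_pos : 0 < sg g K := by unfold sg; have := pow_pos (B_pos (K := K)) g; omega

theorem L_pos : 0 < L g K := by unfold L; have := M_pos' (g := g) (K := K); omega

theorem S_pos (i : ℕ) : 0 < S g K i := by unfold S; exact mul_pos L_pos (pow_pos sg_pos _)

theorem S_succ {i : ℕ} (hi : i < g) : S g K i = sg g K * S g K (i + 1) := by
  unfold S
  rw [show g - i = (g - (i + 1)) + 1 by omega, pow_succ]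
  ring

theorem L_dvd_S (i : ℕ) : L g K ∣ S g K i := Dvd.intro _ rfl

theorem S_le {i i' : ℕ} (h : i ≤ i') : S g K i' ≤ S g K i := by
  unfold S
  apply mul_le_mul_of_nonneg_left _ L_pos.le
  exact pow_le_pow_right₀ (by have := sg_pos (g := g) (K := K); omega) (by omega)

theorem E_nonneg : 0 ≤ E g K := by
  unfold E
  have := M_pos' (g := g) (K := K)
  positivity

theorem Hn_nonneg (i : ℕ) : 0 ≤ Hn g K i := by
  induction i with
  | zero => simp [Hn]
  | succ i ih =>
    rw [Hn]
    have h1 := sg_pos (g := g) (K := K)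
    have h2 := pow_pos (B_pos (K := K)) g
    have h3 := E_nonneg (g := g) (K := K)
    positivity

theorem HS_succ_le {i : ℕ} (hi : i < g) :
    Hn g K i * S g K i ≤ Hn g K (i + 1) * S g K (i + 1) := by
  rw [S_succ hi, Hn]
  have h2 := pow_pos (B_pos (K := K)) g
  have h3 := E_nonneg (g := g) (K := K)
  have h4 := S_pos (g := g) (K := K) (i + 1)
  nlinarith

theorem HS_le_W {i : ℕ} (hi : i ≤ g) : Hn g K i * S g K i ≤ W g K := by
  have key : ∀ n, ∀ i, i + n = g → Hn g K i * S g K i ≤ W g K := by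
    intro n
    induction n with
    | zero =>
      intro i hi
      have : i = g := by omega
      subst this
      unfold W S
      simp
    | succ n ih =>
      intro i hi
      exact (HS_succ_le (by omega)).trans (ih (i + 1) (by omega))
  exact key (g - i) i (by omega)

theorem W_nonneg : 0 ≤ W g K := by
  have := HS_le_W (g := g) (K := K) (i := 0) (by omega)
  simpa [Hn] using this

/-- row decomposition -/
theorem row_dec {i : ℕ} (hi : i ≤ g) {y : ℤ} (h0 : 0 ≤ y) (h1 : y < M g K) :
    ∃ q : ℤ, 0 ≤ q ∧ y = 2 * U g K i * q + Rr g K i y ∧ 2 * U g K i * (q + 1) ≤ M g K ∧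
      0 ≤ Rr g K i y ∧ Rr g K i y < 2 * U g K i := by
  have hU := U_pos (g := g) (K := K) i
  have hU2 : 0 < 2 * U g K i := by omega
  refine ⟨y / (2 * U g K i), Int.ediv_nonneg h0 hU2.le, ?_, ?_, ?_, ?_⟩
  · unfold Rr
    exact (Int.mul_ediv_add_emod y (2 * U g K i)).symm
  · rw [M_eq hi] at h1 ⊢
    apply mul_le_mul_of_nonneg_left _ hU2.le
    have : y / (2 * U g K i) < B K ^ i := Int.ediv_lt_of_lt_mul hU2 (by linarith [mul_comm (2 * U g K i) (B K ^ i)])
    omega
  · exact Int.emod_nonneg _ hU2.ne'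
  · exact Int.emod_lt_of_pos _ hU2

theorem Rr_unique {i : ℕ} {y q r : ℤ} (h : y = 2 * U g K i * q + r) (h0 : 0 ≤ r)
    (h1 : r < 2 * U g K i) : Rr g K i y = r := by
  unfold Rr
  rw [h, Int.mul_add_emod_self_left, Int.emod_eq_of_lt h0 h1]

theorem lam_not_inner {i j : ℕ} (hj : j < K) {y : ℤ} (h : lam g K i j y) : ¬ inner g K i j y := by
  rintro ⟨-, -, h1⟩
  have hu := U_pos (g := g) (K := K) (i + 1)
  have ha : 0 < aj g K i j := by
    unfold aj
    have : (0 : ℤ) < (K : ℤ) - j := by omega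
    positivity
  unfold lam at h
  omega

theorem outer_lam {i j : ℕ} {y : ℤ} (h : outer g K i j y) : lam g K i j y := by
  obtain ⟨-, -, h1⟩ := h
  unfold lam
  omega

theorem aj_lt {i j j' : ℕ} (h : j' < j) : aj g K i j + 2 * U g K (i + 1) ≤ aj g K i j' := by
  unfold aj
  have hu := U_pos (g := g) (K := K) (i + 1)
  have : (j : ℤ) ≥ j' + 1 := by omega
  nlinarith

theorem young_lam {i j : ℕ} {y : ℤ} (h : young g K i j y) : lam g K i j y := by
  obtain ⟨j', hj', h⟩ := h
  have h2 := aj_lt (g := g) (K := K) (i := i) hj'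
  have hu := U_pos (g := g) (K := K) (i + 1)
  rcases h with ⟨-, -, h1⟩ | ⟨-, -, h1⟩ <;> unfold lam <;> omega

/-- the home row of a leaf belongs to a block born at a step `j' ≤ j` of its generation -/
theorem newb_of {x : ℤ} {d : LData} (h : IsLeaf g K x d) :
    ∃ j' ≤ d.j, newb g K d.i j' d.y := by
  obtain ⟨-, -, h⟩ := h
  rcases h with ⟨-, h, -⟩ | ⟨-, h, -⟩ | ⟨⟨j', hj', h⟩, -⟩
  · exact ⟨d.j, le_rfl, Or.inl h⟩
  · exact ⟨d.j, le_rfl, Or.inr h⟩
  · exact ⟨j', hj'.le, h⟩

/-- the tip row of a leaf with home row `y` of generation `i` -/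
def tipOf (g K : ℕ) (i : ℕ) (y : ℤ) : ℤ :=
  if y % 2 = 1 then y + (U g K (i + 1) - 1) else y - (U g K (i + 1) - 1)

theorem tip_eq (x : ℤ) : tip g K x = tipOf g K (dat g K x).i (home g K x) := by
  unfold tip tipOf up
  simp only [decide_eq_true_eq]

/-- all facts on the tip row -/
theorem tip_core {i j' : ℕ} (hi : i < g) (hj : j' < K) {y : ℤ} (h : newb g K i j' y) :
    0 ≤ tipOf g K i y ∧ tipOf g K i y < M g K ∧
    (∀ j, j' < j → j < K → lam g K i j (tipOf g K i y)) ∧
    (∀ i' j, i < i' → i' < g → j < K → lam g K i' j (tipOf g K i y)) := by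
  have hU := U_pos (g := g) (K := K) i
  have hu := U_pos (g := g) (K := K) (i + 1)
  have hUu := U_succ (K := K) hi
  have hy : 0 ≤ y ∧ y < M g K := by
    rcases h with h | h
    · exact ⟨h.1, h.2.1⟩
    · exact ⟨h.1, h.2.1⟩
  obtain ⟨q, hq0, hyq, hqM, hR0, hR1⟩ := row_dec (K := K) hi.le hy.1 hy.2
  obtain ⟨n, hn⟩ := U_odd (g := g) (K := K) i
  have ha : aj g K i j' = 2 * (((K : ℤ) - j') * U g K (i + 1)) := by unfold aj; ring
  set d : ℤ := (K : ℤ) - j' with hd
  have hd1 : 1 ≤ d := by omega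
  have hdK : d ≤ K := by omega
  -- sign form of the relative row
  obtain ⟨s, hs, hR⟩ : ∃ s : ℤ, (s = 1 ∨ s = -1) ∧
      (Rr g K i y = U g K i + s * (2 * (d * U g K (i + 1))) ∨
        Rr g K i y = U g K i - 1 + s * (2 * (d * U g K (i + 1)))) := by
    rcases h with ⟨-, -, h | h⟩ | ⟨-, -, h | h⟩
    · exact ⟨1, Or.inl rfl, Or.inr (by rw [h, ha]; ring)⟩
    · exact ⟨-1, Or.inr rfl, Or.inl (by rw [h, ha]; ring)⟩
    · exact ⟨1, Or.inl rfl, Or.inl (by rw [h, ha]; ring)⟩
    · exact ⟨-1, Or.inr rfl, Or.inr (by rw [h, ha]; ring)⟩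
  have hdu : d * U g K (i + 1) ≤ K * U g K (i + 1) := mul_le_mul_of_nonneg_right hdK hu.le
  have hdu1 : U g K (i + 1) ≤ d * U g K (i + 1) := by nlinarith
  -- the tip row
  have htip : ∃ r : ℤ, tipOf g K i y = 2 * U g K i * q + r ∧ 0 ≤ r ∧ r < 2 * U g K i ∧
      ((r = U g K i + s * (2 * (d * U g K (i + 1))) + (U g K (i + 1) - 1)) ∨
       (r = U g K i + s * (2 * (d * U g K (i + 1))) - U g K (i + 1))) := by
    have hq2 : 2 * U g K i * q = 2 * (U g K i * q) := by ring
    rcases hR with hR | hR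
    · have hpar : y % 2 = 1 := by
        rcases hs with rfl | rfl <;> omega
      refine ⟨U g K i + s * (2 * (d * U g K (i + 1))) + (U g K (i + 1) - 1), ?_, ?_, ?_, Or.inl rfl⟩
      · unfold tipOf
        rw [if_pos hpar]
        omega
      · rcases hs with rfl | rfl
        · nlinarith
        · nlinarith
      · rcases hs with rfl | rfl
        · nlinarith
        · nlinarith
    · have hpar : y % 2 = 0 := by
        rcases hs with rfl | rfl <;> omega
      refine ⟨U g K i + s * (2 * (d * U g K (i + 1))) - U g K (i + 1), ?_, ?_, ?_, Or.inr rfl⟩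
      · unfold tipOf
        rw [if_neg (by omega)]
        omega
      · rcases hs with rfl | rfl
        · nlinarith
        · nlinarith
      · rcases hs with rfl | rfl
        · nlinarith
        · nlinarith
  obtain ⟨r, htr, hr0, hr1, hr⟩ := htip
  have hRt : Rr g K i (tipOf g K i y) = r := Rr_unique htr hr0 hr1
  refine ⟨?_, ?_, ?_, ?_⟩
  · rw [htr]; positivity
  · rw [htr]; nlinarith
  · intro j hj1 hj2
    have ha2 : aj g K i j = 2 * (((K : ℤ) - j) * U g K (i + 1)) := by unfold aj; ring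
    have hd2 : ((K : ℤ) - j) * U g K (i + 1) ≤ (d - 1) * U g K (i + 1) :=
      mul_le_mul_of_nonneg_right (by omega) hu.le
    have hd3 : (d - 1) * U g K (i + 1) = d * U g K (i + 1) - U g K (i + 1) := by ring
    unfold lam
    rw [hRt, ha2]
    rcases hs with rfl | rfl
    · left
      rcases hr with hr | hr <;> omega
    · right
      rcases hr with hr | hr <;> omega
  · intro i' j hi1 hi2 hj2
    have hu' := U_pos (g := g) (K := K) (i' + 1)
    have hU' := U_pos (g := g) (K := K) i'
    have hUu' := U_succ (K := K) hi2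
    obtain ⟨e, he⟩ : U g K i' ∣ U g K (i + 1) := U_dvd (by omega)
    have ha2 : aj g K i' j ≤ 2 * (K * U g K (i' + 1)) := by
      unfold aj
      have : ((K : ℤ) - j) * U g K (i' + 1) ≤ K * U g K (i' + 1) :=
        mul_le_mul_of_nonneg_right (by omega) hu'.le
      linarith [this]
    have hUu2 : U g K i' = 2 * (K * U g K (i' + 1)) + U g K (i' + 1) := by rw [hUu']; ring
    rcases hr with hr | hr
    · -- upper tip: relative row 2U' - 1
      have h1 : Rr g K i' (tipOf g K i y) = 2 * U g K i' - 1 := by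
        apply Rr_unique (q := (2 * K + 1) * e * q + (K + s * d + 1) * e - 1)
        · rw [htr, hr, hUu, he]; ring
        · omega
        · omega
      unfold lam
      rw [h1]
      left
      omega
    · have h1 : Rr g K i' (tipOf g K i y) = 0 := by
        apply Rr_unique (q := (2 * K + 1) * e * q + (K + s * d) * e)
        · rw [htr, hr, hUu, he]; ring
        · omega
        · omega
      unfold lam
      rw [h1]
      right
      omega

theorem isLeaf_dat {x : ℤ} (h : lf g K x) : IsLeaf g K x (dat g K x) := by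
  unfold dat
  rw [dif_pos h]
  exact h.choose_spec

theorem tip_range {x : ℤ} (h : lf g K x) : 0 ≤ tip g K x ∧ tip g K x < M g K := by
  have hd := isLeaf_dat h
  obtain ⟨j', hj', hn⟩ := newb_of hd
  have := tip_core hd.1 (lt_of_le_of_lt hj' hd.2.1) hn
  rw [tip_eq]
  exact ⟨this.1, this.2.1⟩

theorem birth_lt {x : ℤ} (h : lf g K x) : birth g K x < g * K := by
  have hd := isLeaf_dat h
  unfold birth
  have h1 := hd.1
  have h2 := hd.2.1
  calc (dat g K x).i * K + (dat g K x).j < (dat g K x).i * K + K := by omega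
    _ = ((dat g K x).i + 1) * K := by ring
    _ ≤ g * K := Nat.mul_le_mul_right _ h1

theorem dvd_of {x : ℤ} {d : LData} (h : IsLeaf g K x d) : L g K ∣ x := by
  obtain ⟨-, -, h⟩ := h
  have h1 := L_dvd_S (g := g) (K := K) d.i
  have h2 := L_dvd_S (g := g) (K := K) (d.i + 1)
  rcases h with ⟨-, -, p, -, -, h⟩ | ⟨-, -, p, -, -, h⟩ | ⟨-, a, -, h⟩
  · have : x = p * S g K d.i - (d.y / 2 + 1) * S g K (d.i + 1) := by linarith
    rw [this]
    exact dvd_sub (Dvd.dvd.mul_left h1 _) (Dvd.dvd.mul_left h2 _)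
  · have : x = p * S g K d.i + (d.y / 2 + 1) * S g K (d.i + 1) := by linarith
    rw [this]
    exact dvd_add (Dvd.dvd.mul_left h1 _) (Dvd.dvd.mul_left h2 _)
  · rw [h]
    unfold pa
    exact Dvd.dvd.mul_left (Dvd.dvd.mul_left h2 _) _

theorem lf_dvd {x : ℤ} (h : lf g K x) : L g K ∣ x := dvd_of (isLeaf_dat h)

theorem range_of {x : ℤ} {d : LData} (h : IsLeaf g K x d) :
    |x| ≤ Hn g K (d.i + 1) * S g K (d.i + 1) := by
  obtain ⟨hi, hj, h⟩ := h
  have hs := S_pos (g := g) (K := K) (d.i + 1)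
  have hS := S_succ (K := K) hi
  have hE := E_nonneg (g := g) (K := K)
  have hB := pow_pos (B_pos (K := K)) g
  have hH := Hn_nonneg (g := g) (K := K) d.i
  have hsg := sg_pos (g := g) (K := K)
  have hconv : ∀ (p y : ℤ), -Hn g K d.i ≤ p → p ≤ Hn g K d.i → 0 ≤ y → y < M g K →
      |p * S g K d.i| + (y / 2 + 1) * S g K (d.i + 1) ≤ Hn g K (d.i + 1) * S g K (d.i + 1) := by
    intro p y hp1 hp2 hy1 hy2
    have h1 : |p * S g K d.i| ≤ Hn g K d.i * S g K d.i := by
      rw [abs_mul, abs_of_pos (S_pos d.i)]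
      exact mul_le_mul_of_nonneg_right (abs_le.2 ⟨hp1, hp2⟩) (S_pos d.i).le
    have h2 : (y / 2 + 1) * S g K (d.i + 1) ≤ B K ^ g * S g K (d.i + 1) := by
      apply mul_le_mul_of_nonneg_right _ hs.le
      unfold M at hy2
      omega
    have h3 : Hn g K d.i * S g K d.i + B K ^ g * S g K (d.i + 1) ≤
        Hn g K (d.i + 1) * S g K (d.i + 1) := by
      rw [Hn, hS]
      nlinarith
    linarith
  rcases h with ⟨-, ⟨hy1, hy2, -⟩, p, hp1, hp2, h⟩ | ⟨-, ⟨hy1, hy2, -⟩, p, hp1, hp2, h⟩ |
    ⟨⟨j', hj', hn⟩, a, ha, h⟩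
  · have h1 := hconv p d.y hp1 hp2 hy1 hy2
    have h2 : x = p * S g K d.i - (d.y / 2 + 1) * S g K (d.i + 1) := by linarith
    have h3 : 0 ≤ (d.y / 2 + 1) * S g K (d.i + 1) := by
      have : 0 ≤ d.y / 2 := by omega
      positivity
    rw [h2]
    refine (abs_sub _ _).trans ?_
    rw [abs_of_nonneg h3]
    exact h1
  · have h1 := hconv p d.y hp1 hp2 hy1 hy2
    have h2 : x = p * S g K d.i + (d.y / 2 + 1) * S g K (d.i + 1) := by linarith
    have h3 : 0 ≤ (d.y / 2 + 1) * S g K (d.i + 1) := by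
      have : 0 ≤ d.y / 2 := by omega
      positivity
    rw [h2]
    refine (abs_add_le _ _).trans ?_
    rw [abs_of_nonneg h3]
    exact h1
  · have hy : 0 ≤ d.y ∧ d.y < M g K := by
      rcases hn with h | h
      · exact ⟨h.1, h.2.1⟩
      · exact ⟨h.1, h.2.1⟩
    have hpa0 : 0 ≤ pa g K d.i d.j d.y a := by
      unfold pa
      have := M_pos' (g := g) (K := K)
      have h1 := hy.1
      positivity
    have hx : |x| = pa g K d.i d.j d.y a := by
      rw [h, abs_mul, abs_of_nonneg hpa0]
      split <;> simp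
    rw [hx]
    unfold pa
    apply mul_le_mul_of_nonneg_right _ hs.le
    rw [Hn]
    have hM := M_pos' (g := g) (K := K)
    have h1 : ((a : ℤ)) + 1 ≤ 2 ^ K := by
      have h2 : a < 2 ^ K := lt_of_lt_of_le ha (Nat.pow_le_pow_right (by norm_num) hj.le)
      have h3 : a + 1 ≤ 2 ^ K := h2
      exact_mod_cast h3
    have h2 : ((d.j : ℤ) * M g K + d.y + 1) ≤ K * M g K := by
      have h3 : (d.j : ℤ) + 1 ≤ K := by omega
      nlinarith [hy.2]
    have h3 : (((d.j : ℤ) * M g K + d.y + 1)) * 2 ^ K ≤ K * M g K * 2 ^ K :=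
      mul_le_mul_of_nonneg_right h2 (by positivity)
    unfold E
    nlinarith

theorem lf_range {x : ℤ} (h : lf g K x) : -W g K ≤ x ∧ x ≤ W g K := by
  have hd := isLeaf_dat h
  exact abs_le.1 ((range_of hd).trans (HS_le_W hd.1))

theorem c_pos (τ : ℕ) : 0 < c g K τ := by
  unfold c
  have : (0 : ℤ) < BIG g K := by
    unfold BIG
    have h1 := W_nonneg (g := g) (K := K)
    have h2 := S_pos (g := g) (K := K) 0
    have h3 := M_pos' (g := g) (K := K)
    omega
  have : (0 : ℝ) < BIG g K := by exact_mod_cast this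
  positivity

theorem BIG_ge : (2 : ℝ) ≤ BIG g K := by
  have : (2 : ℤ) ≤ BIG g K := by
    unfold BIG
    have h1 := W_nonneg (g := g) (K := K)
    have h2 := S_pos (g := g) (K := K) 0
    have h3 := M_pos' (g := g) (K := K)
    omega
  exact_mod_cast this

theorem eta_nonneg (x : ℤ) : 0 ≤ η g K x := by
  unfold η
  split
  · exact le_rfl
  · have := c_pos (g := g) (K := K) (birth g K x)
    have h2 := BIG_ge (g := g) (K := K)
    positivity

theorem eta_le (x : ℤ) : η g K x ≤ 1 / 100 := by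
  unfold η
  split
  · norm_num
  · rename_i h
    have hb := BIG_ge (g := g) (K := K)
    have hlf : lf g K x := by
      by_contra hc
      apply h
      unfold snk dat
      rw [dif_neg hc]
    have hlt := birth_lt hlf
    rw [div_le_iff₀ (c_pos _)]
    have h1 : (100 * (BIG g K : ℝ)) ^ 1 ≤ c g K (birth g K x) := by
      unfold c
      exact pow_le_pow_right₀ (by linarith) (by omega)
    rw [pow_one] at h1
    linarith

theorem div_mod_birth {i j : ℕ} (hj : j < K) : (i * K + j) / K = i ∧ (i * K + j) % K = j := by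
  constructor
  · rw [mul_comm, Nat.mul_add_div (by omega), Nat.div_eq_of_lt hj, add_zero]
  · rw [mul_comm, Nat.mul_add_mod, Nat.mod_eq_of_lt hj]

theorem leaf_old {x : ℤ} {τ : ℕ} (h : lf g K x) (h1 : birth g K x < τ) (h2 : τ < g * K) :
    Xp g K τ x (tip g K x) = x - c g K τ * η g K x := by
  have hd := isLeaf_dat h
  obtain ⟨j', hj', hn⟩ := newb_of hd
  have hK : 0 < K := by have := hd.2.1; omega
  have hcore := tip_core hd.1 (lt_of_le_of_lt hj' hd.2.1) hn
  have hi2 : τ / K < g := Nat.div_lt_of_lt_mul (by rwa [mul_comm])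
  have hj2 : τ % K < K := Nat.mod_lt _ hK
  have hτ : τ = τ / K * K + τ % K := (Nat.div_add_mod' τ K).symm
  have hlam : lam g K (τ / K) (τ % K) (tip g K x) := by
    rw [tip_eq]
    have hb : birth g K x = (dat g K x).i * K + (dat g K x).j := rfl
    rcases Nat.lt_trichotomy (dat g K x).i (τ / K) with hlt | heq | hgt
    · exact hcore.2.2.2 _ _ hlt hi2 hj2
    · have hjlt : (dat g K x).j < τ % K := by
        rw [hb, hτ, heq] at h1
        omega
      rw [← heq]
      exact hcore.2.2.1 _ (lt_of_le_of_lt hj' hjlt) hj2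
    · exfalso
      have h3 : (τ / K + 1) * K ≤ (dat g K x).i * K := Nat.mul_le_mul_right _ hgt
      rw [hb] at h1
      have h4 : (τ / K + 1) * K = τ / K * K + K := by ring
      omega
  unfold Xp
  rw [if_neg (by rintro ⟨-, hc, -⟩; omega)]
  unfold P0
  rw [if_neg (lam_not_inner hj2 hlam), if_pos hlam]
  unfold psi
  rw [← hτ, if_pos ⟨h, h1⟩]

/-- distance between home row and tip row -/
theorem tip_sub {x : ℤ} : |tip g K x - home g K x| = U g K ((dat g K x).i + 1) - 1 := by
  have hu := U_pos (g := g) (K := K) ((dat g K x).i + 1)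
  unfold tip
  split
  · rw [show home g K x + (U g K ((dat g K x).i + 1) - 1) - home g K x =
      U g K ((dat g K x).i + 1) - 1 by ring, abs_of_nonneg (by omega)]
  · rw [show home g K x - (U g K ((dat g K x).i + 1) - 1) - home g K x =
      -(U g K ((dat g K x).i + 1) - 1) by ring, abs_neg, abs_of_nonneg (by omega)]

theorem strand_tip {x : ℤ} : strand g K x (tip g K x) := by
  unfold strand
  exact ⟨min_le_right _ _, le_max_right _ _⟩

theorem U_lt_M {i : ℕ} (hi : i ≤ g) : U g K i < M g K := by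
  rw [M_eq hi]
  have h1 := U_pos (g := g) (K := K) i
  have h2 : 0 < B K ^ i := pow_pos B_pos _
  nlinarith

theorem Xp_birth {x : ℤ} (h : lf g K x) :
    Xp g K (birth g K x) x (tip g K x) = P0 g K (dat g K x).i (dat g K x).j x (home g K x) +
      (if snk g K x then ((U g K ((dat g K x).i + 1) - 1 : ℤ) : ℝ) / (4 * (M g K : ℝ))
        else -((U g K ((dat g K x).i + 1) - 1 : ℤ) : ℝ)) := by
  have hd := isLeaf_dat h
  have h1 := div_mod_birth (i := (dat g K x).i) hd.2.1
  unfold Xp
  rw [if_pos ⟨h, rfl, strand_tip⟩, tip_sub]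
  have h2 : birth g K x / K = (dat g K x).i := h1.1
  have h3 : birth g K x % K = (dat g K x).j := h1.2
  rw [h2, h3]

theorem psi_birth {x : ℤ} : psi g K ((dat g K x).i * K + (dat g K x).j) x = x - 1 / 2 := by
  unfold psi
  rw [if_neg]
  rintro ⟨-, hc⟩
  unfold birth at hc
  omega

theorem leaf_snk {x : ℤ} (h : lf g K x) (hs : snk g K x = true) :
    Xp g K (birth g K x) x (tip g K x) < x - c g K (birth g K x) * η g K x := by
  have hd := isLeaf_dat h
  have hη : η g K x = 0 := by unfold η; rw [if_pos hs]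
  have hlam : lam g K (dat g K x).i (dat g K x).j (home g K x) := by
    rcases hd.2.2 with ⟨hk, -⟩ | ⟨-, ho, -⟩ | ⟨hy, -⟩
    · have : snk g K x = false := hk
      rw [hs] at this
      exact absurd this (by decide)
    · exact outer_lam ho
    · exact young_lam hy
  rw [Xp_birth h, hη, mul_zero, sub_zero, if_pos hs]
  unfold P0
  rw [if_neg (lam_not_inner hd.2.1 hlam), if_pos hlam, psi_birth]
  have hM : (0 : ℝ) < M g K := by exact_mod_cast M_pos' (g := g) (K := K)
  have hU : ((U g K ((dat g K x).i + 1) - 1 : ℤ) : ℝ) < M g K := by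
    have := U_lt_M (K := K) (i := (dat g K x).i + 1) hd.1
    exact_mod_cast (by omega : U g K ((dat g K x).i + 1) - 1 < M g K)
  have : ((U g K ((dat g K x).i + 1) - 1 : ℤ) : ℝ) / (4 * (M g K : ℝ)) < 1 / 4 := by
    rw [div_lt_div_iff₀ (by positivity) (by norm_num)]
    linarith
  linarith

theorem leaf_src {x : ℤ} (h : lf g K x) (hs : snk g K x = false) :
    x - c g K (birth g K x) * η g K x < Xp g K (birth g K x) x (tip g K x) := by
  have hd := isLeaf_dat h
  have hη : c g K (birth g K x) * η g K x = BIG g K := by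
    unfold η
    rw [if_neg (by rw [hs]; decide)]
    have := c_pos (g := g) (K := K) (birth g K x)
    field_simp
  have hP : ((s0 g K - (S g K (dat g K x).i - 1) : ℤ) : ℝ) ≤
      P0 g K (dat g K x).i (dat g K x).j x (home g K x) ∨
      (x : ℝ) - 1 / 2 ≤ P0 g K (dat g K x).i (dat g K x).j x (home g K x) := by
    unfold P0
    split
    · left
      have h1 := Int.emod_lt_of_pos (-x) (S_pos (g := g) (K := K) (dat g K x).i)
      exact_mod_cast (by omega : s0 g K - (S g K (dat g K x).i - 1) ≤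
        s0 g K - (-x) % S g K (dat g K x).i)
    · right
      have hlam : lam g K (dat g K x).i (dat g K x).j (home g K x) := by
        rcases hd.2.2 with ⟨-, hi, -⟩ | ⟨hk, -⟩ | ⟨hy, -⟩
        · rename_i hc
          exact absurd hi hc
        · have : snk g K x = true := hk
          rw [hs] at this
          exact absurd this (by decide)
        · exact young_lam hy
      rw [if_pos hlam, psi_birth]
  rw [Xp_birth h, hη, if_neg (by rw [hs]; decide)]
  have hU := U_lt_M (K := K) (i := (dat g K x).i + 1) hd.1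
  have hx := lf_range h
  have hS := S_le (g := g) (K := K) (Nat.zero_le (dat g K x).i)
  have hS0 := S_pos (g := g) (K := K) (dat g K x).i
  have hM := M_pos' (g := g) (K := K)
  have hW := W_nonneg (g := g) (K := K)
  rcases hP with hP | hP
  · have h1 : (x : ℤ) - BIG g K <
        (s0 g K - (S g K (dat g K x).i - 1)) - (U g K ((dat g K x).i + 1) - 1) := by
      unfold BIG s0
      omega
    have h2 : (x : ℝ) - BIG g K <
        ((s0 g K - (S g K (dat g K x).i - 1) : ℤ) : ℝ) -
          ((U g K ((dat g K x).i + 1) - 1 : ℤ) : ℝ) := by exact_mod_cast h1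
    linarith
  · have h1 : (x : ℤ) - BIG g K + 1 < x - (U g K ((dat g K x).i + 1) - 1) := by
      unfold BIG
      omega
    have h2 : (x : ℝ) - BIG g K + 1 < x - ((U g K ((dat g K x).i + 1) - 1 : ℤ) : ℝ) := by
      exact_mod_cast h1
    linarith

/-- every level has a leaf (uniqueness of the leaf data as hypothesis) -/
theorem level_nonempty (huniq : ∀ x d d', IsLeaf g K x d → IsLeaf g K x d' → d = d')
    {τ : ℕ} (hτ : τ < g * K) : ∃ x, lf g K x ∧ birth g K x = τ := by
  have hK : 0 < K := by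
    rcases Nat.eq_zero_or_pos K with h | h
    · subst h; omega
    · exact h
  have hi2 : τ / K < g := Nat.div_lt_of_lt_mul (by rwa [mul_comm])
  have hj2 : τ % K < K := Nat.mod_lt _ hK
  set i := τ / K with hi
  set j := τ % K with hj
  have hU := U_pos (g := g) (K := K) i
  have hu := U_pos (g := g) (K := K) (i + 1)
  have hUu := U_succ (K := K) hi2
  have ha0 : 0 < aj g K i j := by
    unfold aj
    have : (0 : ℤ) < (K : ℤ) - j := by omega
    positivity
  have ha1 : aj g K i j ≤ U g K i - 1 := by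
    unfold aj
    rw [hUu]
    have : ((K : ℤ) - j) * U g K (i + 1) ≤ K * U g K (i + 1) :=
      mul_le_mul_of_nonneg_right (by omega) hu.le
    nlinarith
  have hM : 2 * U g K i ≤ M g K := by
    rw [M_eq hi2.le]
    have : 0 < B K ^ i := pow_pos B_pos _
    nlinarith
  set y : ℤ := U g K i - 1 + aj g K i j with hy
  have hR : Rr g K i y = y := by
    unfold Rr
    exact Int.emod_eq_of_lt (by omega) (by omega)
  have hleaf : IsLeaf g K (-((y / 2 + 1) * S g K (i + 1))) ⟨i, j, false, y⟩ := by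
    have hy0 : 0 ≤ y := by omega
    have hy1 : y < M g K := by omega
    refine ⟨hi2, hj2, Or.inl ⟨rfl, ⟨hy0, hy1, Or.inl hR⟩, 0, ?_, ?_, ?_⟩⟩
    · have := Hn_nonneg (g := g) (K := K) i
      simpa using this
    · exact Hn_nonneg i
    · simp
  have hlf : lf g K (-((y / 2 + 1) * S g K (i + 1))) := ⟨_, hleaf⟩
  refine ⟨_, hlf, ?_⟩
  have := huniq _ _ _ (isLeaf_dat hlf) hleaf
  unfold birth
  rw [this]
  show i * K + j = τ
  rw [hi, hj]
  exact Nat.div_add_mod' τ K

end H57B3
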