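import Pool.Agent.H57.RN.B3Leaf

/-!
Project RN, plan C, part B3: uniqueness of the leaf data of a column.
-/

set_option autoImplicit false

namespace H57B3

open Finset RNB RNB.B3

variable {g K : ℕ}

theorem sg_mul_Hn_le (i : ℕ) : sg g K * Hn g K i ≤ Hn g K (i + 1) := by
  rw [Hn]
  have h2 := pow_pos (B_pos (K := K)) g
  have h3 := E_nonneg (g := g) (K := K)
  omega

theorem old_succ {i : ℕ} (hi : i < g) {x : ℤ} (h : old g K i x) : old g K (i + 1) x := by
  obtain ⟨p, hp1, hp2, rfl⟩ := h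
  have hsg := sg_pos (g := g) (K := K)
  have hH := sg_mul_Hn_le (g := g) (K := K) i
  refine ⟨p * sg g K, ?_, ?_, ?_⟩
  · nlinarith
  · nlinarith
  · rw [S_succ hi]; ring

theorem old_mono {i i' : ℕ} (h : i ≤ i') (hi' : i' ≤ g) {x : ℤ} (hx : old g K i x) :
    old g K i' x := by
  induction i', h using Nat.le_induction with
  | base => exact hx
  | succ n hn ih => exact old_succ (by omega) (ih (by omega))

/-- the column of a leaf of generation `i` in units of `S (i+1)` -/
theorem leaf_unit {x : ℤ} {d : LData} (h : IsLeaf g K x d) :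
    ∃ n : ℤ, x = n * S g K (d.i + 1) ∧
      ((∃ p m : ℤ, -Hn g K d.i ≤ p ∧ p ≤ Hn g K d.i ∧ 1 ≤ m ∧ m ≤ B K ^ g ∧ m = d.y / 2 + 1 ∧
          0 ≤ d.y ∧ d.y < M g K ∧
          ((d.k = false ∧ inner g K d.i d.j d.y ∧ n = p * sg g K - m) ∨
            (d.k = true ∧ outer g K d.i d.j d.y ∧ n = p * sg g K + m))) ∨
        (∃ a : ℕ, a < 2 ^ d.j ∧ 0 ≤ d.y ∧ d.y < M g K ∧
          n = (if d.k then 1 else -1) * (sg g K * Hn g K d.i + B K ^ g + 1 +
            (d.j * M g K + d.y) * 2 ^ K + a))) := by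
  obtain ⟨hi, hj, h⟩ := h
  have hS := S_succ (K := K) hi
  rcases h with ⟨hk, hin, p, hp1, hp2, h⟩ | ⟨hk, hout, p, hp1, hp2, h⟩ |
    ⟨⟨j', hj', hn⟩, a, ha, h⟩
  · refine ⟨p * sg g K - (d.y / 2 + 1), ?_, Or.inl ⟨p, d.y / 2 + 1, hp1, hp2, ?_, ?_, rfl, hin.1,
      hin.2.1, Or.inl ⟨hk, hin, rfl⟩⟩⟩
    · rw [hS] at h; linarith
    · have := hin.1; omega
    · have := hin.2.1; unfold M at this; omega
  · refine ⟨p * sg g K + (d.y / 2 + 1), ?_, Or.inl ⟨p, d.y / 2 + 1, hp1, hp2, ?_, ?_, rfl, hout.1,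
      hout.2.1, Or.inr ⟨hk, hout, rfl⟩⟩⟩
    · rw [hS] at h; linarith
    · have := hout.1; omega
    · have := hout.2.1; unfold M at this; omega
  · have hy : 0 ≤ d.y ∧ d.y < M g K := by
      rcases hn with h | h
      · exact ⟨h.1, h.2.1⟩
      · exact ⟨h.1, h.2.1⟩
    refine ⟨(if d.k then 1 else -1) * (sg g K * Hn g K d.i + B K ^ g + 1 +
      (d.j * M g K + d.y) * 2 ^ K + a), ?_, Or.inr ⟨a, ha, hy.1, hy.2, rfl⟩⟩
    rw [h]; unfold pa; ring

theorem not_old_of_leaf {x : ℤ} {d : LData} (h : IsLeaf g K x d) : ¬ old g K d.i x := by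
  rintro ⟨q, hq1, hq2, hq⟩
  have hS := S_succ (K := K) h.1
  have hs := S_pos (g := g) (K := K) (d.i + 1)
  have hsg := sg_pos (g := g) (K := K)
  have hB := pow_pos (B_pos (K := K)) g
  obtain ⟨n, hn, h1⟩ := leaf_unit h
  have hnq : n = q * sg g K := by
    have : n * S g K (d.i + 1) = (q * sg g K) * S g K (d.i + 1) := by
      rw [← hn, hq, hS]; ring
    exact mul_right_cancel₀ hs.ne' this
  rcases h1 with ⟨p, m, hp1, hp2, hm1, hm2, -, -, -, h1⟩ | ⟨a, ha, hy0, hy1, h1⟩
  · have h2 : sg g K = 2 * B K ^ g + 1 := rfl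
    rcases h1 with ⟨-, -, h1⟩ | ⟨-, -, h1⟩
    · have h3 : (p - q) * sg g K = m := by linarith
      rcases le_or_gt (p - q) 0 with h4 | h4
      · nlinarith
      · nlinarith
    · have h3 : (q - p) * sg g K = m := by linarith
      rcases le_or_gt (q - p) 0 with h4 | h4
      · nlinarith
      · nlinarith
  · have h0 : 0 ≤ ((d.j : ℤ) * M g K + d.y) * 2 ^ K + a := by
      have := M_pos' (g := g) (K := K)
      positivity
    have hH : |n| ≤ Hn g K d.i * sg g K := by
      rw [hnq, abs_mul, abs_of_pos hsg]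
      exact mul_le_mul_of_nonneg_right (abs_le.2 ⟨hq1, hq2⟩) hsg.le
    rw [h1, abs_mul] at hH
    have h3 : |(if d.k = true then (1 : ℤ) else -1)| = 1 := by split <;> simp
    have hHn := Hn_nonneg (g := g) (K := K) d.i
    rw [h3, one_mul, abs_of_nonneg (by nlinarith)] at hH
    nlinarith

theorem old_of_leaf {x : ℤ} {d : LData} (h : IsLeaf g K x d) {i' : ℕ} (hi : d.i < i')
    (hi' : i' ≤ g) : old g K i' x := by
  apply old_mono (i := d.i + 1) hi hi'
  obtain ⟨n, hn, -⟩ := leaf_unit h
  have hs := S_pos (g := g) (K := K) (d.i + 1)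
  have h1 := range_of h
  rw [hn, abs_mul, abs_of_pos hs] at h1
  have h2 := le_of_mul_le_mul_right h1 hs
  rw [abs_le] at h2
  exact ⟨n, h2.1, h2.2, hn⟩

/-- in a block the inner row determines the step -/
theorem inner_unique {i j j' : ℕ} (hi : i < g) (hj : j < K) (hj' : j' < K) {y y' : ℤ}
    (h : inner g K i j y) (h' : inner g K i j' y') (hb : y / 2 = y' / 2) : y = y' ∧ j = j' := by
  have hu := U_pos (g := g) (K := K) (i + 1)
  obtain ⟨n, hn⟩ := U_odd (g := g) (K := K) i
  have hd : (0 : ℤ) < (K : ℤ) - j := by omega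
  have hd' : (0 : ℤ) < (K : ℤ) - j' := by omega
  have ha : 0 < aj g K i j := by unfold aj; positivity
  have ha' : 0 < aj g K i j' := by unfold aj; positivity
  have e1 : aj g K i j = 2 * (((K : ℤ) - j) * U g K (i + 1)) := by unfold aj; ring
  have e2 : aj g K i j' = 2 * (((K : ℤ) - j') * U g K (i + 1)) := by unfold aj; ring
  obtain ⟨q, -, hyq, -, hR0, hR1⟩ := row_dec (K := K) hi.le h.1 h.2.1
  obtain ⟨q', -, hyq', -, hR0', hR1'⟩ := row_dec (K := K) hi.le h'.1 h'.2.1
  have f1 : 2 * U g K i * q = 2 * (U g K i * q) := by ring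
  have f2 : 2 * U g K i * q' = 2 * (U g K i * q') := by ring
  have hqq : U g K i * q = U g K i * q' := by
    -- both rows are in the same block, hence in the same period
    have : q = q' := by
      have hU := U_pos (g := g) (K := K) i
      have g1 : 2 * U g K i * q ≤ y ∧ y < 2 * U g K i * (q + 1) := by
        constructor <;> nlinarith
      have g2 : 2 * U g K i * q' ≤ y' ∧ y' < 2 * U g K i * (q' + 1) := by
        constructor <;> nlinarith
      have g3 : 2 * U g K i * (q + 1) = 2 * (U g K i * (q + 1)) := by ring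
      have g4 : 2 * U g K i * (q' + 1) = 2 * (U g K i * (q' + 1)) := by ring
      have g5 : 2 * U g K i * q < 2 * U g K i * (q' + 1) := by omega
      have g6 : 2 * U g K i * q' < 2 * U g K i * (q + 1) := by omega
      have g7 := lt_of_mul_lt_mul_left g5 (by omega)
      have g8 := lt_of_mul_lt_mul_left g6 (by omega)
      omega
    rw [this]
  have key : y = y' ∧ aj g K i j = aj g K i j' := by
    rcases h.2.2 with h1 | h1 <;> rcases h'.2.2 with h2 | h2 <;> constructor <;> omega
  refine ⟨key.1, ?_⟩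
  have h3 := key.2
  unfold aj at h3
  have h4 := mul_right_cancel₀ hu.ne' h3
  omega

theorem outer_unique {i j j' : ℕ} (hi : i < g) (hj : j < K) (hj' : j' < K) {y y' : ℤ}
    (h : outer g K i j y) (h' : outer g K i j' y') (hb : y / 2 = y' / 2) : y = y' ∧ j = j' := by
  have hu := U_pos (g := g) (K := K) (i + 1)
  obtain ⟨n, hn⟩ := U_odd (g := g) (K := K) i
  have hd : (0 : ℤ) < (K : ℤ) - j := by omega
  have hd' : (0 : ℤ) < (K : ℤ) - j' := by omega
  have ha : 0 < aj g K i j := by unfold aj; positivity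
  have ha' : 0 < aj g K i j' := by unfold aj; positivity
  have e1 : aj g K i j = 2 * (((K : ℤ) - j) * U g K (i + 1)) := by unfold aj; ring
  have e2 : aj g K i j' = 2 * (((K : ℤ) - j') * U g K (i + 1)) := by unfold aj; ring
  obtain ⟨q, -, hyq, -, hR0, hR1⟩ := row_dec (K := K) hi.le h.1 h.2.1
  obtain ⟨q', -, hyq', -, hR0', hR1'⟩ := row_dec (K := K) hi.le h'.1 h'.2.1
  have f1 : 2 * U g K i * q = 2 * (U g K i * q) := by ring
  have f2 : 2 * U g K i * q' = 2 * (U g K i * q') := by ring
  have hqq : U g K i * q = U g K i * q' := by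
    have : q = q' := by
      have hU := U_pos (g := g) (K := K) i
      have g1 : 2 * U g K i * q ≤ y ∧ y < 2 * U g K i * (q + 1) := by
        constructor <;> nlinarith
      have g2 : 2 * U g K i * q' ≤ y' ∧ y' < 2 * U g K i * (q' + 1) := by
        constructor <;> nlinarith
      have g3 : 2 * U g K i * (q + 1) = 2 * (U g K i * (q + 1)) := by ring
      have g4 : 2 * U g K i * (q' + 1) = 2 * (U g K i * (q' + 1)) := by ring
      have g5 : 2 * U g K i * q < 2 * U g K i * (q' + 1) := by omega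
      have g6 : 2 * U g K i * q' < 2 * U g K i * (q + 1) := by omega
      have g7 := lt_of_mul_lt_mul_left g5 (by omega)
      have g8 := lt_of_mul_lt_mul_left g6 (by omega)
      omega
    rw [this]
  have key : y = y' ∧ aj g K i j = aj g K i j' := by
    rcases h.2.2 with h1 | h1 <;> rcases h'.2.2 with h2 | h2 <;> constructor <;> omega
  refine ⟨key.1, ?_⟩
  have h3 := key.2
  unfold aj at h3
  have h4 := mul_right_cancel₀ hu.ne' h3
  omega

/-- the centred residue -/
theorem residue_unique {b p p' r r' : ℤ} (hr1 : -b ≤ r) (hr2 : r ≤ b) (hr1' : -b ≤ r')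
    (hr2' : r' ≤ b) (h : p * (2 * b + 1) + r = p' * (2 * b + 1) + r') : p = p' ∧ r = r' := by
  have h1 : (p - p') * (2 * b + 1) = r' - r := by linarith
  have h2 : p = p' := by
    rcases lt_trichotomy (p - p') 0 with h3 | h3 | h3
    · nlinarith
    · omega
    · nlinarith
  subst h2
  exact ⟨rfl, by linarith⟩

/-- uniqueness of the leaf data -/
theorem leaf_unique {x : ℤ} {d d' : LData} (h : IsLeaf g K x d) (h' : IsLeaf g K x d') :
    d = d' := by
  have hii : d.i = d'.i := by
    rcases Nat.lt_trichotomy d.i d'.i with h1 | h1 | h1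
    · exact absurd (old_of_leaf h h1 h'.1.le) (not_old_of_leaf h')
    · exact h1
    · exact absurd (old_of_leaf h' h1 h.1.le) (not_old_of_leaf h)
  obtain ⟨i, j, k, y⟩ := d
  obtain ⟨i', j', k', y'⟩ := d'
  simp only at hii
  subst hii
  have hs := S_pos (g := g) (K := K) (i + 1)
  have hsg := sg_pos (g := g) (K := K)
  have hB := pow_pos (B_pos (K := K)) g
  have hHn := Hn_nonneg (g := g) (K := K) i
  have hsgB : sg g K = 2 * B K ^ g + 1 := rfl
  obtain ⟨n, hn, h1⟩ := leaf_unit h
  obtain ⟨n', hn', h1'⟩ := leaf_unit h'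
  simp only at hn hn' h1 h1'
  have hnn : n = n' := by
    have : n * S g K (i + 1) = n' * S g K (i + 1) := by rw [← hn, ← hn']
    exact mul_right_cancel₀ hs.ne' this
  subst hnn
  have hconv : ∀ (p m : ℤ), -Hn g K i ≤ p → p ≤ Hn g K i → 1 ≤ m → m ≤ B K ^ g →
      (n = p * sg g K - m ∨ n = p * sg g K + m) → |n| ≤ sg g K * Hn g K i + B K ^ g := by
    intro p m hp1 hp2 hm1 hm2 hnm
    have h2 : |p * sg g K| ≤ sg g K * Hn g K i := by
      rw [abs_mul, abs_of_pos hsg, mul_comm]
      exact mul_le_mul_of_nonneg_left (abs_le.2 ⟨hp1, hp2⟩) hsg.le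
    rw [abs_le] at h2 ⊢
    rcases hnm with hnm | hnm <;> constructor <;> linarith
  have hend : ∀ (a : ℕ) (kk : Bool) (jj : ℕ) (yy : ℤ), 0 ≤ yy →
      n = (if kk then 1 else -1) * (sg g K * Hn g K i + B K ^ g + 1 +
        (jj * M g K + yy) * 2 ^ K + a) → sg g K * Hn g K i + B K ^ g + 1 ≤ |n| := by
    intro a kk jj yy hyy hnn
    have h0 : 0 ≤ ((jj : ℤ) * M g K + yy) * 2 ^ K + a := by
      have := M_pos' (g := g) (K := K)
      positivity
    have h3 : |(if kk = true then (1 : ℤ) else -1)| = 1 := by split <;> simp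
    rw [hnn, abs_mul, h3, one_mul, abs_of_nonneg (by nlinarith)]
    linarith
  rcases h1 with ⟨p, m, hp1, hp2, hm1, hm2, hm, hy0, hy1, h1⟩ | ⟨a, ha, hy0, hy1, h1⟩
  · rcases h1' with ⟨p', m', hp1', hp2', hm1', hm2', hm', hy0', hy1', h1'⟩ |
      ⟨a', ha', hy0', hy1', h1'⟩
    · rcases h1 with ⟨hk, hin, h1⟩ | ⟨hk, hin, h1⟩ <;>
      rcases h1' with ⟨hk', hin', h1'⟩ | ⟨hk', hin', h1'⟩
      · obtain ⟨-, hr⟩ := residue_unique (b := B K ^ g) (p := p) (p' := p') (r := -m) (r' := -m')
          (by omega) (by omega) (by omega) (by omega) (by rw [← hsgB]; linarith)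
        obtain ⟨e1, e2⟩ := inner_unique h.1 h.2.1 h'.2.1 hin hin' (by omega)
        subst e1; subst e2; subst hk; subst hk'; rfl
      · obtain ⟨-, hr⟩ := residue_unique (b := B K ^ g) (p := p) (p' := p') (r := -m) (r' := m')
          (by omega) (by omega) (by omega) (by omega) (by rw [← hsgB]; linarith)
        omega
      · obtain ⟨-, hr⟩ := residue_unique (b := B K ^ g) (p := p) (p' := p') (r := m) (r' := -m')
          (by omega) (by omega) (by omega) (by omega) (by rw [← hsgB]; linarith)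
        omega
      · obtain ⟨-, hr⟩ := residue_unique (b := B K ^ g) (p := p) (p' := p') (r := m) (r' := m')
          (by omega) (by omega) (by omega) (by omega) (by rw [← hsgB]; linarith)
        obtain ⟨e1, e2⟩ := outer_unique h.1 h.2.1 h'.2.1 hin hin' (by omega)
        subst e1; subst e2; subst hk; subst hk'; rfl
    · exfalso
      have h2 := hconv p m hp1 hp2 hm1 hm2 (by
        rcases h1 with ⟨-, -, h1⟩ | ⟨-, -, h1⟩
        · exact Or.inl h1
        · exact Or.inr h1)
      have h3 := hend a' k' j' y' hy0' h1'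
      omega
  · rcases h1' with ⟨p', m', hp1', hp2', hm1', hm2', hm', hy0', hy1', h1'⟩ |
      ⟨a', ha', hy0', hy1', h1'⟩
    · exfalso
      have h2 := hconv p' m' hp1' hp2' hm1' hm2' (by
        rcases h1' with ⟨-, -, h1'⟩ | ⟨-, -, h1'⟩
        · exact Or.inl h1'
        · exact Or.inr h1')
      have h3 := hend a k j y hy0 h1
      omega
    · have hM := M_pos' (g := g) (K := K)
      have hA : 0 ≤ ((j : ℤ) * M g K + y) * 2 ^ K + a := by positivity
      have hA' : 0 ≤ ((j' : ℤ) * M g K + y') * 2 ^ K + a' := by positivity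
      have hsH : 0 ≤ sg g K * Hn g K i := mul_nonneg hsg.le hHn
      have hkk : k = k' ∧ ((j : ℤ) * M g K + y) * 2 ^ K + a =
          ((j' : ℤ) * M g K + y') * 2 ^ K + a' := by
        rw [h1] at h1'
        cases k <;> cases k' <;> simp only [Bool.false_eq_true, if_false, if_true] at h1'
        · exact ⟨rfl, by linarith⟩
        · exfalso; linarith
        · exfalso; linarith
        · exact ⟨rfl, by linarith⟩
      obtain ⟨rfl, hA2⟩ := hkk
      have ha2 : (a : ℤ) < 2 ^ K := by
        have : a < 2 ^ K := lt_of_lt_of_le ha (Nat.pow_le_pow_right (by norm_num) h.2.1.le)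
        exact_mod_cast this
      have ha2' : (a' : ℤ) < 2 ^ K := by
        have : a' < 2 ^ K := lt_of_lt_of_le ha' (Nat.pow_le_pow_right (by norm_num) h'.2.1.le)
        exact_mod_cast this
      have h2K : (0 : ℤ) < 2 ^ K := by positivity
      have hjy : (j : ℤ) * M g K + y = (j' : ℤ) * M g K + y' := by
        have e1 : (((j : ℤ) * M g K + y) * 2 ^ K + a) / 2 ^ K = (j : ℤ) * M g K + y := by
          rw [mul_comm, Int.mul_add_ediv_left _ _ h2K.ne',
            Int.ediv_eq_zero_of_lt (by positivity) ha2, add_zero]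
        have e2 : (((j' : ℤ) * M g K + y') * 2 ^ K + a') / 2 ^ K = (j' : ℤ) * M g K + y' := by
          rw [mul_comm, Int.mul_add_ediv_left _ _ h2K.ne',
            Int.ediv_eq_zero_of_lt (by positivity) ha2', add_zero]
        rw [← e1, ← e2, hA2]
      have hjj : (j : ℤ) = j' := by
        have e1 : ((j : ℤ) * M g K + y) / M g K = j := by
          rw [mul_comm, Int.mul_add_ediv_left _ _ hM.ne',
            Int.ediv_eq_zero_of_lt hy0 hy1, add_zero]
        have e2 : ((j' : ℤ) * M g K + y') / M g K = j' := by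
          rw [mul_comm, Int.mul_add_ediv_left _ _ hM.ne',
            Int.ediv_eq_zero_of_lt hy0' hy1', add_zero]
        rw [← e1, ← e2, hjy]
      have hjj' : j = j' := by exact_mod_cast hjj
      subst hjj'
      have hyy : y = y' := by linarith
      subst hyy
      rfl

theorem dat_eq {x : ℤ} {d : LData} (h : IsLeaf g K x d) : dat g K x = d :=
  leaf_unique (isLeaf_dat ⟨d, h⟩) h

/-- every level has a leaf -/
theorem level_nonempty' {τ : ℕ} (hτ : τ < g * K) : ∃ x, lf g K x ∧ birth g K x = τ :=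
  level_nonempty (fun _ _ _ => leaf_unique) hτ

end H57B3
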