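import Mathlib

set_option autoImplicit false

/-! Project RN (S11118): the binary comparison (note 2712 (4)). -/

namespace H57RN

open Finset

/-- bit as a natural number -/
def bn (b : Bool) : ℕ := if b then 1 else 0

/-- bit as a real number -/
noncomputable def br (b : Bool) : ℝ := if b then 1 else 0

lemma bn_le_one (b : Bool) : bn b ≤ 1 := by cases b <;> simp [bn]

lemma sum_bn_le (a : ℕ → ℕ) (s : ℕ → Bool) (K : ℕ) :
    ∑ i ∈ range K, a i * bn (s i) ≤ ∑ i ∈ range K, a i := by
  refine Finset.sum_le_sum fun i _ => ?_
  calc a i * bn (s i) ≤ a i * 1 := Nat.mul_le_mul_left _ (bn_le_one _)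
    _ = a i := Nat.mul_one _

/-- lower digits are dominated -/
lemma lower_bound (len : ℕ → ℝ) (B : ℝ) (hB : 0 ≤ B) (G : ℝ) (hG : 2 * B + 2 ≤ G) (K : ℕ)
    (hb : ∀ i < K, |len i| ≤ B) (s s' : ℕ → Bool) :
    |∑ i ∈ range K, G ^ i * br (s' i) * len i - ∑ i ∈ range K, G ^ i * br (s i) * len i| <
      G ^ K / 2 := by
  have hG1 : 2 ≤ G := by linarith
  have hG0 : 0 < G := by linarith
  induction K with
  | zero => simp
  | succ K ih =>
    have h1 := ih (fun i hi => hb i (by omega))
    rw [Finset.sum_range_succ, Finset.sum_range_succ]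
    have e : (∑ i ∈ range K, G ^ i * br (s' i) * len i + G ^ K * br (s' K) * len K) -
        (∑ i ∈ range K, G ^ i * br (s i) * len i + G ^ K * br (s K) * len K) =
        (∑ i ∈ range K, G ^ i * br (s' i) * len i - ∑ i ∈ range K, G ^ i * br (s i) * len i) +
        G ^ K * ((br (s' K) - br (s K)) * len K) := by ring
    rw [e]
    have hpow : 0 < G ^ K := pow_pos hG0 K
    have h2 : |(br (s' K) - br (s K)) * len K| ≤ B := by
      rw [abs_mul]
      have h3 : |br (s' K) - br (s K)| ≤ 1 := by
        unfold br
        cases s' K <;> cases s K <;> simp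
      calc |br (s' K) - br (s K)| * |len K| ≤ 1 * B :=
            mul_le_mul h3 (hb K (by omega)) (abs_nonneg _) zero_le_one
        _ = B := one_mul _
    have h4 : |G ^ K * ((br (s' K) - br (s K)) * len K)| ≤ G ^ K * B := by
      rw [abs_mul, abs_of_pos hpow]
      exact mul_le_mul_of_nonneg_left h2 hpow.le
    have h5 := abs_add_le (∑ i ∈ range K, G ^ i * br (s' i) * len i -
      ∑ i ∈ range K, G ^ i * br (s i) * len i) (G ^ K * ((br (s' K) - br (s K)) * len K))
    have h6 : G ^ (K + 1) = G ^ K * G := pow_succ G K
    have h7 : G ^ K * (2 * B + 2) ≤ G ^ K * G := mul_le_mul_of_nonneg_left hG hpow.le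
    rw [h6]
    nlinarith

/-- **Binary comparison.** Flows `a i` which are superincreasing where the length is at least `1/2`, and zero
(with all lower ones) elsewhere: a smaller flow forces a smaller `Λ`. -/
theorem binary_comparison (a : ℕ → ℕ) (len : ℕ → ℝ) (B : ℝ) (hB : 0 ≤ B) (G : ℝ)
    (hG : 2 * B + 2 ≤ G) (s s' : ℕ → Bool) (K : ℕ)
    (h : ∀ i < K, (1 / 2 ≤ len i ∧ ∑ l ∈ range i, a l ≤ a i) ∨ ∀ l ≤ i, a l = 0)
    (hb : ∀ i < K, |len i| ≤ B)
    (hN : ∑ i ∈ range K, a i * bn (s i) < ∑ i ∈ range K, a i * bn (s' i)) :
    ∑ i ∈ range K, G ^ i * br (s i) * len i < ∑ i ∈ range K, G ^ i * br (s' i) * len i := by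
  induction K with
  | zero => simp at hN
  | succ K ih =>
    rcases h K (by omega) with ⟨hlen, hsup⟩ | hzero
    · rw [Finset.sum_range_succ, Finset.sum_range_succ] at hN ⊢
      by_cases heq : s K = s' K
      · rw [heq] at hN ⊢
        have := ih (fun i hi => h i (by omega)) (fun i hi => hb i (by omega)) (by omega)
        linarith
      · by_cases hs : s K = true
        · exfalso
          have hs' : s' K = false := by
            cases hh : s' K
            · rfl
            · exact absurd (hs.trans hh.symm) heq
          rw [hs, hs'] at hN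
          simp only [bn, if_true, Bool.false_eq_true, if_false] at hN
          have h1 := sum_bn_le a s' K
          unfold bn at h1
          omega
        · have hs1 : s K = false := by simpa using hs
          have hs' : s' K = true := by
            cases hh : s' K
            · exact absurd (hs1.trans hh.symm) heq
            · rfl
          have h1 := lower_bound len B hB G hG K (fun i hi => hb i (by omega)) s s'
          have h2 := (abs_lt.mp h1).1
          rw [hs1, hs']
          simp only [br, if_true, Bool.false_eq_true, if_false]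
          simp only [br] at h2
          have hpow : 0 < G ^ K := pow_pos (by linarith) K
          have h3 : G ^ K * (1 / 2) ≤ G ^ K * len K := mul_le_mul_of_nonneg_left hlen hpow.le
          linarith
    · exfalso
      have h0 : ∀ t : ℕ → Bool, ∑ i ∈ range (K + 1), a i * bn (t i) = 0 := by
        intro t
        apply Finset.sum_eq_zero
        intro i hi
        rw [hzero i (by rw [Finset.mem_range] at hi; omega), Nat.zero_mul]
      rw [h0, h0] at hN
      exact lt_irrefl _ hN

end H57RN
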