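import Mathlib

set_option autoImplicit false

/-! Project RN (S11118): the threshold lemma for one gap. -/

namespace H57RN

open Finset

/-- Thresholds: if `N` and `L` are weakly comonotone (`N s < N s' → L s < L s'`) then there is a monotone
cost `E` such that `E c < L s` for `c < N s` and `L s < E c` for `N s ≤ c`. -/
theorem exists_threshold {S : Type*} [Finite S] (N : S → ℕ) (L : S → ℝ)
    (h : ∀ s s', N s < N s' → L s < L s') :
    ∃ E : ℕ → ℝ, Monotone E ∧ ∀ s c, (c < N s → E c < L s) ∧ (N s ≤ c → L s < E c) := by
  classical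
  have := Fintype.ofFinite S
  -- a uniform gap
  obtain ⟨d, hd, hgap⟩ : ∃ d : ℝ, 0 < d ∧ ∀ s s', N s < N s' → L s + d < L s' := by
    by_cases hne : ((univ : Finset (S × S)).filter (fun p => N p.1 < N p.2)).Nonempty
    · obtain ⟨p, hp, hmin⟩ := Finset.exists_min_image _ (fun p : S × S => L p.2 - L p.1) hne
      rw [Finset.mem_filter] at hp
      have h1 := h _ _ hp.2
      refine ⟨(L p.2 - L p.1) / 2, by linarith, ?_⟩
      intro s s' hs
      have h2 := hmin (s, s') (by rw [Finset.mem_filter]; exact ⟨Finset.mem_univ _, hs⟩)
      simp only at h2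
      linarith
    · refine ⟨1, one_pos, ?_⟩
      intro s s' hs
      exact absurd ⟨(s, s'), by rw [Finset.mem_filter]; exact ⟨Finset.mem_univ _, hs⟩⟩ hne
  -- a lower bound
  obtain ⟨b, hb⟩ : ∃ b : ℝ, ∀ s, b + d < L s := by
    by_cases hne : (univ : Finset S).Nonempty
    · obtain ⟨s0, -, hmin⟩ := Finset.exists_min_image univ L hne
      refine ⟨L s0 - d - 1, fun s => ?_⟩
      have := hmin s (Finset.mem_univ _)
      linarith
    · exact ⟨0, fun s => absurd ⟨s, Finset.mem_univ s⟩ hne⟩
  let A : ℕ → Finset ℝ := fun c => insert b ((univ.filter (fun s => N s ≤ c)).image L)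
  have hA : ∀ c, (A c).Nonempty := fun c => ⟨b, Finset.mem_insert_self _ _⟩
  refine ⟨fun c => (A c).max' (hA c) + d, ?_, ?_⟩
  · intro c c' hc
    have hsub : A c ⊆ A c' := by
      intro y hy
      rw [Finset.mem_insert, Finset.mem_image] at hy
      rcases hy with rfl | ⟨s, hs, rfl⟩
      · exact Finset.mem_insert_self _ _
      · rw [Finset.mem_filter] at hs
        exact Finset.mem_insert_of_mem (Finset.mem_image_of_mem _
          (Finset.mem_filter.mpr ⟨Finset.mem_univ _, hs.2.trans hc⟩))
    have := Finset.max'_subset (hA c) hsub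
    simp only
    linarith
  · intro s c
    constructor
    · intro hc
      have hmem := Finset.max'_mem (A c) (hA c)
      rw [Finset.mem_insert, Finset.mem_image] at hmem
      simp only
      rcases hmem with h1 | ⟨s', hs', h1⟩
      · rw [h1]; exact hb s
      · rw [Finset.mem_filter] at hs'
        rw [← h1]
        exact hgap s' s (lt_of_le_of_lt hs'.2 hc)
    · intro hc
      have hmem : L s ∈ A c := Finset.mem_insert_of_mem (Finset.mem_image_of_mem _
          (Finset.mem_filter.mpr ⟨Finset.mem_univ _, hc⟩))
      have := Finset.le_max' (A c) (L s) hmem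
      simp only
      linarith

/-- the convex one-variable cost `∑_{c<n} E c - L n` is minimal exactly at `n = N` -/
theorem sum_sub_lt {E : ℕ → ℝ} {L : ℝ} {N : ℕ} (h1 : ∀ c, c < N → E c < L)
    (h2 : ∀ c, N ≤ c → L < E c) {n : ℕ} (hn : n ≠ N) :
    ∑ c ∈ range N, E c - L * N < ∑ c ∈ range n, E c - L * n := by
  rcases lt_or_gt_of_ne hn with h | h
  · have key : ∀ k, n + (k + 1) ≤ N → ∑ c ∈ range (n + (k + 1)), E c - L * (n + (k + 1) : ℕ) <
        ∑ c ∈ range n, E c - L * n := by
      intro k
      induction k with
      | zero =>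
        intro hk
        have := h1 n (by omega)
        rw [Finset.sum_range_succ]
        push_cast
        linarith
      | succ k ih =>
        intro hk
        have h3 := ih (by omega)
        have := h1 (n + (k + 1)) (by omega)
        have e : n + (k + 1 + 1) = n + (k + 1) + 1 := by omega
        rw [e, Finset.sum_range_succ]
        push_cast at h3 ⊢
        linarith
    obtain ⟨k, rfl⟩ := Nat.exists_eq_add_of_lt h
    have := key k (by omega)
    rw [show n + k + 1 = n + (k + 1) by omega]
    exact this
  · have key : ∀ k, ∑ c ∈ range N, E c - L * N <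
        ∑ c ∈ range (N + (k + 1)), E c - L * (N + (k + 1) : ℕ) := by
      intro k
      induction k with
      | zero =>
        have := h2 N le_rfl
        rw [Finset.sum_range_succ]
        push_cast
        linarith
      | succ k ih =>
        have := h2 (N + (k + 1)) (by omega)
        have e : N + (k + 1 + 1) = N + (k + 1) + 1 := by omega
        rw [e, Finset.sum_range_succ]
        push_cast at ih ⊢
        linarith
    obtain ⟨k, rfl⟩ := Nat.exists_eq_add_of_lt h
    have := key k
    rw [show N + k + 1 = N + (k + 1) by omega]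
    exact this

end H57RN
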